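import Mathlib

/-!
# `P = W` for varieties of arbitrary dimension: data and known facts
-/

namespace Pool.Agent.N522.PW

/-- The objects of the conjecture. -/
structure Theory where
  /-- connected smooth complex projective varieties -/
  Var : Type
  /-- complex reductive groups -/
  Grp : Type
  /-- dimension -/
  dim : Var → ℕ
  /-- minimal surfaces (surfaces without `(-1)`-curves) -/
  Minimal : Var → Prop
  /-- morphisms -/
  Mor : Var → Var → Type
  /-- the morphism induces an isomorphism of fundamental groups -/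
  PiIso : ∀ {X Y : Var}, Mor X Y → Prop
  /-- the Dolbeault moduli space `M_D(X, G)` -/
  MD : Var → Grp → Type
  /-- the space `𝒱(X, G)` of tuples of symmetric differentials -/
  VV : Var → Grp → Type
  /-- `IH(M_B(X, G))` -/
  IB : Var → Grp → Type
  /-- `IH(M_D(X, G))` -/
  ID : Var → Grp → Type
  [topM : ∀ X G, TopologicalSpace (MD X G)]
  [topV : ∀ X G, TopologicalSpace (VV X G)]
  [grpB : ∀ X G, AddCommGroup (IB X G)]
  [modB : ∀ X G, Module ℚ (IB X G)]
  [grpD : ∀ X G, AddCommGroup (ID X G)]
  [modD : ∀ X G, Module ℚ (ID X G)]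
  /-- the Hitchin morphism -/
  hit : ∀ X G, MD X G → VV X G
  /-- the isomorphism `Ψ_*` of the non-abelian Hodge theorem -/
  psi : ∀ X G, IB X G ≃ₗ[ℚ] ID X G
  /-- the weight filtration of `IH(M_B(X, G))` -/
  W : ∀ X G, ℤ → Submodule ℚ (IB X G)
  /-- the perverse Leray filtration on `IH(M_D(Y, G))` of a map `M_D(Y, G) → 𝒱(X, G)`, starting at
  zero -/
  perv : ∀ (X Y : Var) (G : Grp), (MD Y G → VV X G) → ℤ → Submodule ℚ (ID Y G)

attribute [instance] Theory.topM Theory.topV Theory.grpB Theory.modB Theory.grpD Theory.modD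

/-- Q1 for `(X, G)`: `W_{2k+1} = W_{2k}` -/
def Q1 (T : Theory) (X : T.Var) (G : T.Grp) : Prop :=
  ∀ k : ℤ, T.W X G (2 * k + 1) = T.W X G (2 * k)

/-- Q2 for `(X, G)`: `Ψ_* W_{2k} = P_k` -/
def Q2 (T : Theory) (X : T.Var) (G : T.Grp) : Prop :=
  ∀ k : ℤ, (T.W X G (2 * k)).map (T.psi X G : T.IB X G →ₗ[ℚ] T.ID X G) =
    T.perv X X G (T.hit X G) k

/-- The maps induced by the pullback of representations and Higgs bundles along a morphism
`f : X → Y` which induces an isomorphism of fundamental groups. -/
structure Pullback (T : Theory) (X Y : T.Var) (G : T.Grp) where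
  /-- `M_D(Y, G) → M_D(X, G)`, a homeomorphism by the non-abelian Hodge theorem -/
  onM : T.MD Y G ≃ₜ T.MD X G
  /-- pullback of symmetric differentials -/
  onV : T.VV Y G → T.VV X G
  /-- `IH(M_B(Y, G)) ≃ IH(M_B(X, G))` -/
  onB : T.IB Y G ≃ₗ[ℚ] T.IB X G
  /-- `IH(M_D(Y, G)) ≃ IH(M_D(X, G))` -/
  onD : T.ID Y G ≃ₗ[ℚ] T.ID X G

/-- Known properties of these maps.

* `hitchin`: compatibility with the Hitchin morphisms; `psi`: with the non-abelian Hodge theorem;
* `weight`: `M_B(Y, G) → M_B(X, G)` is an isomorphism of varieties;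
* `transport`: `M_D(Y, G) → M_D(X, G)` is a morphism of varieties and a homeomorphism, hence finite
  and compatible with intersection complexes;
* `finite`: if the restriction of `onV` to the closed image of the Hitchin morphism is proper (hence
  finite, as a proper morphism of affine varieties), it does not change the perverse filtration. -/
structure PullbackFacts (T : Theory) {X Y : T.Var} {G : T.Grp} (f : Pullback T X Y G) : Prop where
  onV_cont : Continuous f.onV
  hitchin : ∀ m : T.MD Y G, T.hit X G (f.onM m) = f.onV (T.hit Y G m)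
  psi : ∀ x : T.IB Y G, T.psi X G (f.onB x) = f.onD (T.psi Y G x)
  weight : ∀ k : ℤ, (T.W Y G k).map (f.onB : T.IB Y G →ₗ[ℚ] T.IB X G) = T.W X G k
  transport : ∀ k : ℤ, (T.perv X Y G (T.hit X G ∘ f.onM) k).map
    (f.onD : T.ID Y G →ₗ[ℚ] T.ID X G) = T.perv X X G (T.hit X G) k
  finite : IsProperMap (fun y : Set.range (T.hit Y G) => f.onV y) →
    ∀ k : ℤ, T.perv X Y G (f.onV ∘ T.hit Y G) k = T.perv Y Y G (T.hit Y G) k

/-- Known facts.

* `proper`: the Hitchin morphism is proper;
* `pull`: pullback along a morphism inducing an isomorphism of fundamental groups;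
* `lefschetz`: a smooth hyperplane section of a variety of dimension at least three;
* `line`: the projection `X × ℙ¹ → X`;
* `minimal`: the morphism from a surface to a minimal model. -/
structure Facts (T : Theory) : Prop where
  proper : ∀ X G, IsProperMap (T.hit X G)
  pull : ∀ (X Y : T.Var) (f : T.Mor X Y), T.PiIso f → ∀ G : T.Grp,
    ∃ g : Pullback T X Y G, PullbackFacts T g
  lefschetz : ∀ X : T.Var, 3 ≤ T.dim X → ∃ Z : T.Var, T.dim Z + 1 = T.dim X ∧
    ∃ f : T.Mor Z X, T.PiIso f
  line : ∀ X : T.Var, ∃ Z : T.Var, T.dim Z = T.dim X + 1 ∧ ∃ f : T.Mor Z X, T.PiIso f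
  minimal : ∀ X : T.Var, T.dim X = 2 → ∃ Z : T.Var, T.dim Z = 2 ∧ T.Minimal Z ∧
    ∃ f : T.Mor X Z, T.PiIso f

/-- The equivalence relation generated by the morphisms inducing isomorphisms of fundamental
groups. It contains birational equivalence. -/
def Linked (T : Theory) : T.Var → T.Var → Prop :=
  Relation.EqvGen fun X Y => ∃ f : T.Mor X Y, T.PiIso f

end Pool.Agent.N522.PW
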