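import Pool.Agent.N522.PW.Defs

/-!
# Invariance of the questions under isomorphisms of fundamental groups
-/

namespace Pool.Agent.N522.PW

variable {T : Theory}

/-- pullback of symmetric differentials is proper on the image of the Hitchin morphism -/
theorem proper_onV (hT : Facts T) {X Y : T.Var} {G : T.Grp} (g : Pullback T X Y G)
    (hg : PullbackFacts T g) : IsProperMap (fun y : Set.range (T.hit Y G) => g.onV y) := by
  have h1 : IsProperMap (T.hit X G ∘ g.onM) := (hT.proper X G).comp g.onM.isProperMap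
  have h2 : Continuous (T.hit Y G) := (hT.proper Y G).continuous
  refine isProperMap_of_comp_of_surj (f := Set.rangeFactorization (T.hit Y G))
    (h2.subtype_mk _) (hg.onV_cont.comp continuous_subtype_val) ?_ Set.rangeFactorization_surjective
  have h3 : (fun y : Set.range (T.hit Y G) => g.onV y) ∘ Set.rangeFactorization (T.hit Y G) =
      T.hit X G ∘ g.onM := by
    funext m
    exact (hg.hitchin m).symm
  rw [h3]
  exact h1

theorem perv_eq (hT : Facts T) {X Y : T.Var} {G : T.Grp} (g : Pullback T X Y G)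
    (hg : PullbackFacts T g) (k : ℤ) :
    (T.perv Y Y G (T.hit Y G) k).map (g.onD : T.ID Y G →ₗ[ℚ] T.ID X G) =
      T.perv X X G (T.hit X G) k := by
  rw [← hg.transport k, ← hg.finite (proper_onV hT g hg) k]
  have h3 : g.onV ∘ T.hit Y G = T.hit X G ∘ g.onM := by
    funext m
    exact (hg.hitchin m).symm
  rw [h3]

theorem q1_iff (hT : Facts T) {X Y : T.Var} (f : T.Mor X Y) (hf : T.PiIso f) (G : T.Grp) :
    Q1 T X G ↔ Q1 T Y G := by
  obtain ⟨g, hg⟩ := hT.pull X Y f hf G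
  refine forall_congr' fun k => ?_
  rw [← hg.weight, ← hg.weight]
  exact (Submodule.map_injective_of_injective g.onB.injective).eq_iff

theorem q2_iff (hT : Facts T) {X Y : T.Var} (f : T.Mor X Y) (hf : T.PiIso f) (G : T.Grp) :
    Q2 T X G ↔ Q2 T Y G := by
  obtain ⟨g, hg⟩ := hT.pull X Y f hf G
  refine forall_congr' fun k => ?_
  rw [← hg.weight, ← perv_eq hT g hg, ← Submodule.map_comp]
  have h1 : (T.psi X G : T.IB X G →ₗ[ℚ] T.ID X G) ∘ₗ (g.onB : T.IB Y G →ₗ[ℚ] T.IB X G) =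
      (g.onD : T.ID Y G →ₗ[ℚ] T.ID X G) ∘ₗ (T.psi Y G : T.IB Y G →ₗ[ℚ] T.ID Y G) := by
    ext x
    exact hg.psi x
  rw [h1, Submodule.map_comp]
  exact (Submodule.map_injective_of_injective g.onD.injective).eq_iff

theorem linked_iff (hT : Facts T) {X Y : T.Var} (h : Linked T X Y) (G : T.Grp) :
    (Q1 T X G ↔ Q1 T Y G) ∧ (Q2 T X G ↔ Q2 T Y G) := by
  induction h with
  | rel X Y h =>
    obtain ⟨f, hf⟩ := h
    exact ⟨q1_iff hT f hf G, q2_iff hT f hf G⟩
  | refl X => exact ⟨Iff.rfl, Iff.rfl⟩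
  | symm X Y _ ih => exact ⟨ih.1.symm, ih.2.symm⟩
  | trans X Y Z _ _ ih1 ih2 => exact ⟨ih1.1.trans ih2.1, ih1.2.trans ih2.2⟩

/-- every variety is linked to a minimal surface -/
theorem exists_minimal (hT : Facts T) (X : T.Var) :
    ∃ Z : T.Var, T.dim Z = 2 ∧ T.Minimal Z ∧ Linked T Z X := by
  have key : ∀ X : T.Var, T.dim X = 2 →
      ∃ Z : T.Var, T.dim Z = 2 ∧ T.Minimal Z ∧ Linked T Z X := by
    intro X hX
    obtain ⟨Z, hZ, hm, f, hf⟩ := hT.minimal X hX
    exact ⟨Z, hZ, hm, Relation.EqvGen.symm _ _ (Relation.EqvGen.rel _ _ ⟨f, hf⟩)⟩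
  have step : ∀ X Z : T.Var, (∃ f : T.Mor Z X, T.PiIso f) →
      (∃ S : T.Var, T.dim S = 2 ∧ T.Minimal S ∧ Linked T S Z) →
      ∃ S : T.Var, T.dim S = 2 ∧ T.Minimal S ∧ Linked T S X := by
    rintro X Z h ⟨S, h1, h2, h3⟩
    exact ⟨S, h1, h2, Relation.EqvGen.trans _ _ _ h3 (Relation.EqvGen.rel _ _ h)⟩
  by_cases h2 : 2 ≤ T.dim X
  · -- induction on the dimension
    obtain ⟨d, hd⟩ : ∃ d, T.dim X = d + 2 := ⟨T.dim X - 2, by omega⟩
    clear h2
    induction d generalizing X with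
    | zero => exact key X hd
    | succ d ih =>
      obtain ⟨Z, hZ, hf⟩ := hT.lefschetz X (by omega)
      exact step X Z hf (ih Z (by omega))
  · obtain ⟨Z, hZ, hf⟩ := hT.line X
    by_cases h0 : T.dim X = 1
    · exact step X Z hf (key Z (by omega))
    · obtain ⟨Z', hZ', hf'⟩ := hT.line Z
      exact step X Z hf (step Z Z' hf' (key Z' (by omega)))

end Pool.Agent.N522.PW
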